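import Pool.Agent.V7H44.DV.Stm

/-!
# The ring of the `p`-adic integers as a ring of coefficients
-/

set_option autoImplicit false

namespace Pool.Agent.V7H44.MT

open IsLocalRing Pool.Agent.V7H44.DVS

theorem coeff_padic (p : ℕ) [Fact p.Prime] : Coefficients p ℤ_[p] ℚ_[p] := by
  have hJ : ∀ n : ℕ, ∀ x : ℤ_[p], x ∈ maximalIdeal ℤ_[p] ^ n ↔ ‖x‖ ≤ (p : ℝ) ^ (-n : ℤ) := by
    intro n x
    rw [PadicInt.maximalIdeal_eq_span_p, Ideal.span_singleton_pow,
      PadicInt.norm_le_pow_iff_mem_span_pow]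
  refine ⟨inferInstance, inferInstance, ?_, ?_, ?_⟩
  · rw [isAdic_iff]
    refine ⟨fun n => ?_, fun s hs => ?_⟩
    · have e : ((maximalIdeal ℤ_[p] ^ n : Ideal ℤ_[p]) : Set ℤ_[p]) =
          Metric.ball 0 ((p : ℝ) ^ (-n + 1 : ℤ)) := by
        ext x
        rw [SetLike.mem_coe, hJ, Metric.mem_ball, dist_zero_right,
          PadicInt.norm_le_pow_iff_norm_lt_pow_add_one]
      rw [e]
      exact Metric.isOpen_ball
    · obtain ⟨ε, hε, hs'⟩ := Metric.mem_nhds_iff.1 hs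
      obtain ⟨k, hk⟩ := PadicInt.exists_pow_neg_lt p hε
      refine ⟨k, fun x hx => hs' ?_⟩
      rw [Metric.mem_ball, dist_zero_right]
      exact lt_of_le_of_lt ((hJ k x).1 hx) hk
  · exact Finite.of_equiv (ZMod p) (PadicInt.residueField (p := p)).symm.toEquiv
  · rw [PadicInt.maximalIdeal_eq_span_p]
    exact Ideal.mem_span_singleton_self _

end Pool.Agent.V7H44.MT
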