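import Pool.Agent.V7H44.DV.Stm

/-!
# The Mumford-Tate conjecture at one place: definitions for the statement
-/

set_option autoImplicit false

namespace Pool.Agent.V7H44.MT

open Matrix Pool.Agent.V7H44.DVS

section hodge

variable {n : ℕ}

/-- The value at a matrix of a polynomial in the entries with integral coefficients. -/
noncomputable def value {R : Type} [CommRing R] (g : Matrix (Fin n) (Fin n) R)
    (f : MvPolynomial (Fin n × Fin n) ℤ) : R :=
  MvPolynomial.aeval (fun q : Fin n × Fin n => g q.1 q.2) f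

/-- `G` is the set of the complex points of an algebraic subgroup over `ℚ` of the general linear
group. -/
def IsQGroup (G : Set (Matrix (Fin n) (Fin n) ℂ)) : Prop :=
  (∃ P : Set (MvPolynomial (Fin n × Fin n) ℤ), ∀ g, g ∈ G ↔ g.det ≠ 0 ∧ ∀ f ∈ P, value g f = 0) ∧
  1 ∈ G ∧ (∀ a ∈ G, ∀ b ∈ G, a * b ∈ G) ∧ ∀ a ∈ G, a⁻¹ ∈ G

/-- The complex points of the Mumford-Tate group: the smallest algebraic subgroup over `ℚ` which
contains `h z` for all `z ≠ 0`. -/
def mumfordTate (h : ℂ → Matrix (Fin n) (Fin n) ℂ) : Set (Matrix (Fin n) (Fin n) ℂ) :=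
  {g | ∀ G, IsQGroup G → (∀ z, z ≠ 0 → h z ∈ G) → g ∈ G}

/-- The points of the Mumford-Tate group over a field `R` of characteristic zero. -/
def InMumfordTate {R : Type} [Field R] (h : ℂ → Matrix (Fin n) (Fin n) ℂ)
    (g : Matrix (Fin n) (Fin n) R) : Prop :=
  ∀ f : MvPolynomial (Fin n × Fin n) ℤ, (∀ m ∈ mumfordTate h, value m f = 0) → value g f = 0

end hodge

section galois

variable {G : Type} [Group G] {A : Type} [CommRing A] {n : ℕ} (F : Type) [Field F] [Algebra A F]

/-- The matrix of `σ` over the algebraic closure of `F`. -/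
noncomputable def bar (ρ : G → Matrix (Fin n) (Fin n) A) (σ : G) :
    Matrix (Fin n) (Fin n) (AlgebraicClosure F) :=
  (mat F ρ σ).map (algebraMap F (AlgebraicClosure F))

/-- Let `X ⊆ H` be a subgroup. The matrix `g` is in the identity component of the Zariski closure of
`ρ(X)` over the algebraic closure of `F`: every polynomial in the entries of a matrix which vanishes on
`ρ(X ∩ Δ)`, for a subgroup `Δ` of `H` finitely many left cosets of which cover `X`, vanishes at
`g`. -/
def InMonodromy (H : Subgroup G) (X : Set G) (ρ : G → Matrix (Fin n) (Fin n) A)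
    (g : Matrix (Fin n) (Fin n) (AlgebraicClosure F)) : Prop :=
  ∀ f : MvPolynomial (Fin n × Fin n) (AlgebraicClosure F),
    (∃ Δ : Subgroup G, FinitelyCovered H X Δ ∧ ∀ δ ∈ Δ, δ ∈ X →
      MvPolynomial.eval (fun q : Fin n × Fin n => bar F ρ δ q.1 q.2) f = 0) →
    MvPolynomial.eval (fun q : Fin n × Fin n => g q.1 q.2) f = 0

/-- The identity component of the Zariski closure of `ρ(X)` is the Mumford-Tate group. -/
def MumfordTateOn (H : Subgroup G) (X : Set G) (ρ : G → Matrix (Fin n) (Fin n) A)
    (h : ℂ → Matrix (Fin n) (Fin n) ℂ) : Prop :=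
  ∀ g : Matrix (Fin n) (Fin n) (AlgebraicClosure F), g.det ≠ 0 →
    (InMonodromy F H X ρ g ↔ InMumfordTate h g)

/-- The vector `v`, with coordinates in the algebraic closure of `F`, is fixed by the elements of
`X ∩ Δ`, for a subgroup `Δ` of `H` finitely many left cosets of which cover `X`. -/
def Invariant (H : Subgroup G) (X : Set G) (ρ : G → Matrix (Fin n) (Fin n) A)
    (v : Fin n → AlgebraicClosure F) : Prop :=
  ∃ Δ : Subgroup G, FinitelyCovered H X Δ ∧ ∀ δ ∈ Δ, δ ∈ X → bar F ρ δ *ᵥ v = v

/-- The representation is potentially triangular on `X`: for a subgroup `Δ` of `H` finitely many left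
cosets of which cover `X`, the matrices of the elements of `X ∩ Δ` are upper triangular in one
basis of the vector space over the algebraic closure of `F`. -/
def PotentiallyTriangular (H : Subgroup G) (X : Set G) (ρ : G → Matrix (Fin n) (Fin n) A) : Prop :=
  ∃ (Δ : Subgroup G) (P Q : Matrix (Fin n) (Fin n) (AlgebraicClosure F)),
    FinitelyCovered H X Δ ∧ Q * P = 1 ∧
    ∀ δ ∈ Δ, δ ∈ X → ∀ i j : Fin n, j < i → (Q * bar F ρ δ * P) i j = 0

variable [TopologicalSpace G]

/-- The representation is semisimple: every subspace over the algebraic closure of `F` which is stable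
under an open subgroup `U` of `H` has a complement which is stable under `U`. (In characteristic zero
this is equivalent to the semisimplicity of the representation of `H` over `F`.) -/
def Semisimple (H : Subgroup G) (ρ : G → Matrix (Fin n) (Fin n) A) : Prop :=
  ∀ U ≤ H, IsOpen (U : Set G) → ∀ W : Submodule (AlgebraicClosure F) (Fin n → AlgebraicClosure F),
    (∀ σ ∈ U, ∀ w ∈ W, bar F ρ σ *ᵥ w ∈ W) →
    ∃ W' : Submodule (AlgebraicClosure F) (Fin n → AlgebraicClosure F), IsCompl W W' ∧
      ∀ σ ∈ U, ∀ w ∈ W', bar F ρ σ *ᵥ w ∈ W'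

omit F in
/-- The elements of an open subgroup of `H` act by commuting matrices. -/
def PotentiallyAbelian (H : Subgroup G) (ρ : G → Matrix (Fin n) (Fin n) A) : Prop :=
  ∃ U ≤ H, IsOpen (U : Set G) ∧ ∀ σ ∈ U, ∀ τ ∈ U, ρ σ * ρ τ = ρ τ * ρ σ

end galois

end Pool.Agent.V7H44.MT
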