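import Pool.Agent.V7H44.DV.Conv

/-!
# Zariski closures and adic closures
-/

set_option autoImplicit false
set_option linter.unusedSectionVars false

namespace Pool.Agent.V7H44.MT

open Pool.Agent.Z384 Pool.Agent.V7H44.DV
open IsLocalRing Matrix

section abs

variable {G : Type*} [Group G]

/-- the limits of the elements of `D` -/
def lim (V : ℕ → Subgroup G) (hn : ∀ m, (V m).Normal) (D : Subgroup G) : Subgroup G where
  carrier := {x | ∀ m, ∃ δ ∈ D, δ⁻¹ * x ∈ V m}
  one_mem' := fun m => ⟨1, one_mem _, by simp⟩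
  mul_mem' := by
    intro x y hx hy m
    obtain ⟨δ, hδ, h1⟩ := hx m
    obtain ⟨ε, hε, h2⟩ := hy m
    refine ⟨δ * ε, mul_mem hδ hε, ?_⟩
    have e : (δ * ε)⁻¹ * (x * y) = (ε⁻¹ * (δ⁻¹ * x) * ε⁻¹⁻¹) * (ε⁻¹ * y) := by group
    rw [e]
    exact mul_mem ((hn m).conj_mem _ h1 _) h2
  inv_mem' := by
    intro x hx m
    obtain ⟨δ, hδ, h1⟩ := hx m
    refine ⟨δ⁻¹, inv_mem hδ, ?_⟩
    have e : δ⁻¹⁻¹ * x⁻¹ = x * (δ⁻¹ * x)⁻¹ * x⁻¹ := by group
    rw [e]
    exact (hn m).conj_mem _ (inv_mem h1) _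

lemma mem_lim {V : ℕ → Subgroup G} {hn : ∀ m, (V m).Normal} {D : Subgroup G} {x : G} :
    x ∈ lim V hn D ↔ ∀ m, ∃ δ ∈ D, δ⁻¹ * x ∈ V m := Iff.rfl

lemma lim_of_lim {V : ℕ → Subgroup G} {hn : ∀ m, (V m).Normal} {D : Subgroup G} {x : G}
    (hx : ∀ m, ∃ δ ∈ lim V hn D, δ⁻¹ * x ∈ V m) : x ∈ lim V hn D := by
  intro m
  obtain ⟨y, hy, h1⟩ := hx m
  obtain ⟨δ, hδ, h2⟩ := hy m
  refine ⟨δ, hδ, ?_⟩
  have e : δ⁻¹ * x = (δ⁻¹ * y) * (y⁻¹ * x) := by group
  rw [e]
  exact mul_mem h2 h1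

end abs

section poly

open MvPolynomial

variable {ι : Type*} {A : Type*} [CommRing A]

lemma eval_sub_mem {I : Ideal A} (f : MvPolynomial ι A) {a b : ι → A}
    (h : ∀ i, a i - b i ∈ I) : eval a f - eval b f ∈ I := by
  induction f using MvPolynomial.induction_on with
  | C c => simp
  | add p q hp hq =>
    rw [map_add, map_add]
    have e : eval a p + eval a q - (eval b p + eval b q) =
        (eval a p - eval b p) + (eval a q - eval b q) := by ring
    rw [e]
    exact I.add_mem hp hq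
  | mul_X p i hp =>
    rw [map_mul, map_mul, eval_X, eval_X]
    have e : eval a p * a i - eval b p * b i =
        a i * (eval a p - eval b p) + eval b p * (a i - b i) := by ring
    rw [e]
    exact I.add_mem (I.mul_mem_left _ hp) (I.mul_mem_left _ (h i))

variable {F : Type*} [Field F] [Algebra A F] [IsFractionRing A F]

lemma exists_clear (f : MvPolynomial ι F) : ∃ (c : A) (g : MvPolynomial ι A),
    algebraMap A F c ≠ 0 ∧ ∀ a : ι → A, algebraMap A F (eval a g) =
      algebraMap A F c * eval (fun i => algebraMap A F (a i)) f := by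
  have hnt : Nontrivial A := (algebraMap A F).domain_nontrivial
  induction f using MvPolynomial.induction_on with
  | C c =>
    obtain ⟨⟨x, y⟩, hxy⟩ := IsLocalization.surj (nonZeroDivisors A) c
    refine ⟨y, C x, IsLocalization.to_map_ne_zero_of_mem_nonZeroDivisors F le_rfl y.2,
      fun a => ?_⟩
    rw [eval_C, eval_C, mul_comm]
    exact hxy.symm
  | add p q hp hq =>
    obtain ⟨c, g, hc, h⟩ := hp
    obtain ⟨c', g', hc', h'⟩ := hq
    refine ⟨c * c', C c' * g + C c * g', ?_, fun a => ?_⟩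
    · rw [map_mul]
      exact mul_ne_zero hc hc'
    · rw [map_add, map_mul, map_mul, eval_C, eval_C, map_add, map_mul, map_mul, h, h', map_add,
        map_mul]
      ring
  | mul_X p i hp =>
    obtain ⟨c, g, hc, h⟩ := hp
    refine ⟨c, g * X i, hc, fun a => ?_⟩
    rw [map_mul, eval_X, map_mul, h, map_mul, eval_X]
    ring

lemma zero_F [IsLocalRing A] [IsNoetherianRing A] (f : MvPolynomial ι F) {a : ι → A}
    (h : ∀ m : ℕ, ∃ b : ι → A, (∀ i, a i - b i ∈ maximalIdeal A ^ m) ∧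
      eval (fun i => algebraMap A F (b i)) f = 0) :
    eval (fun i => algebraMap A F (a i)) f = 0 := by
  obtain ⟨c, g, hc, hg⟩ := exists_clear (A := A) f
  have hbot : (⨅ k : ℕ, maximalIdeal A ^ k) = ⊥ :=
    Ideal.iInf_pow_eq_bot_of_isLocalRing (maximalIdeal A) (Ideal.IsPrime.ne_top inferInstance)
  have hmem : eval a g ∈ (⨅ k : ℕ, maximalIdeal A ^ k) := by
    rw [Ideal.mem_iInf]
    intro k
    obtain ⟨b, hb, h0⟩ := h k
    have h1 : eval b g = 0 := by
      apply IsFractionRing.injective A F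
      rw [hg, h0, mul_zero, map_zero]
    have h2 := eval_sub_mem g hb
    rwa [h1, sub_zero] at h2
  rw [hbot, Ideal.mem_bot] at hmem
  have h3 := hg a
  rw [hmem, map_zero] at h3
  exact (mul_eq_zero.1 h3.symm).resolve_left hc

variable {E : Type*} [Field E] [Algebra F E]

lemma exists_dual (l : E →ₗ[F] F) (f : MvPolynomial ι E) : ∃ g : MvPolynomial ι F,
    ∀ a : ι → F, eval a g = l (eval (fun i => algebraMap F E (a i)) f) := by
  induction f using MvPolynomial.induction_on' with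
  | monomial d c =>
    refine ⟨monomial d (l c), fun a => ?_⟩
    rw [eval_monomial, eval_monomial]
    have e : (c * d.prod fun i e => (algebraMap F E (a i)) ^ e) =
        (d.prod fun i e => a i ^ e) • c := by
      rw [Algebra.smul_def, mul_comm]
      congr 1
      rw [Finsupp.prod, Finsupp.prod, map_prod]
      exact Finset.prod_congr rfl fun i _ => (map_pow _ _ _).symm
    rw [e, map_smul, smul_eq_mul, mul_comm]
  | add p q hp hq =>
    obtain ⟨g, hg⟩ := hp
    obtain ⟨g', hg'⟩ := hq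
    exact ⟨g + g', fun a => by rw [map_add, map_add, map_add, hg, hg']⟩

lemma zero_E [IsLocalRing A] [IsNoetherianRing A] (f : MvPolynomial ι E) {a : ι → A}
    (h : ∀ m : ℕ, ∃ b : ι → A, (∀ i, a i - b i ∈ maximalIdeal A ^ m) ∧
      eval (fun i => algebraMap F E (algebraMap A F (b i))) f = 0) :
    eval (fun i => algebraMap F E (algebraMap A F (a i))) f = 0 := by
  rw [← Module.forall_dual_apply_eq_zero_iff F]
  intro l
  obtain ⟨g, hg⟩ := exists_dual l f
  rw [← hg]
  refine zero_F g fun m => ?_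
  obtain ⟨b, hb, h0⟩ := h m
  refine ⟨b, hb, ?_⟩
  rw [hg, h0, map_zero]

end poly

section rep

variable {A : Type*} [CommRing A] [IsLocalRing A] [IsNoetherianRing A] {n : ℕ}
variable {G : Type*} [Group G]
variable {F : Type*} [Field F] [Algebra A F] [IsFractionRing A F]
variable {E : Type*} [Field E] [Algebra F E]

/-- the matrix over `E` -/
def me (F E : Type*) [Field F] [Algebra A F] [Field E] [Algebra F E] (ρ : G →* GL (Fin n) A)
    (σ : G) : Matrix (Fin n) (Fin n) E :=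
  (mp F ρ σ).map (algebraMap F E)

lemma me_one (ρ : G →* GL (Fin n) A) : me F E ρ 1 = 1 := by
  rw [me, mp_one, Matrix.map_one _ (map_zero _) (map_one _)]

lemma me_mul (ρ : G →* GL (Fin n) A) (σ τ : G) :
    me F E ρ (σ * τ) = me F E ρ σ * me F E ρ τ := by
  rw [me, mp_mul, Matrix.map_mul]
  rfl

lemma val_of_lim {ρ : G →* GL (Fin n) A} {D : Set G} {f : MvPolynomial (Fin n × Fin n) E}
    (hf : ∀ δ ∈ D, MvPolynomial.eval (fun q : Fin n × Fin n => me F E ρ δ q.1 q.2) f = 0)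
    {x : G} (hx : ∀ m, ∃ δ ∈ D, δ⁻¹ * x ∈ cong ρ m) :
    MvPolynomial.eval (fun q : Fin n × Fin n => me F E ρ x q.1 q.2) f = 0 := by
  refine zero_E (A := A) (F := F) f (a := fun q : Fin n × Fin n =>
    (ρ x : Matrix (Fin n) (Fin n) A) q.1 q.2) fun m => ?_
  obtain ⟨δ, hδ, h1⟩ := hx m
  refine ⟨fun q => (ρ δ : Matrix (Fin n) (Fin n) A) q.1 q.2, fun q => ?_, hf δ hδ⟩
  have e1 : (ρ x : Matrix (Fin n) (Fin n) A) - (ρ δ : Matrix (Fin n) (Fin n) A) =
      (ρ δ : Matrix (Fin n) (Fin n) A) * ((ρ (δ⁻¹ * x) : Matrix (Fin n) (Fin n) A) - 1) := by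
    rw [Matrix.mul_sub, Matrix.mul_one, ← Units.val_mul, ← map_mul, mul_inv_cancel_left]
  show ((ρ x : Matrix (Fin n) (Fin n) A) - (ρ δ : Matrix (Fin n) (Fin n) A)) q.1 q.2 ∈ _
  rw [e1]
  exact InI.mulL' (mem_cong.1 h1) _ q.1 q.2

/-- **Limits of a subgroup of finite index of a dense subgroup.** -/
theorem exists_open [TopologicalSpace G] [IsTopologicalGroup G] [TopologicalSpace A]
    (hA : IsAdic (maximalIdeal A)) {ρ : G →* GL (Fin n) A}
    (hρ : ∀ i j, Continuous fun σ => (ρ σ : Matrix (Fin n) (Fin n) A) i j)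
    {H : Subgroup G} (hH : H.FiniteIndex) {D : Set H}
    (happ : ∀ (m : ℕ) (g : H), ∃ δ ∈ D, ((δ⁻¹ * g : H) : G) ∈ cong ρ m)
    {D' : Subgroup G} {R : Set G} (hRf : R.Finite) (hR : ∀ δ ∈ D, ∃ r ∈ R, r⁻¹ * (δ : G) ∈ D') :
    ∃ C : Subgroup G, C.FiniteIndex ∧ IsOpen (C : Set G) ∧
      ∀ x ∈ C, ∀ m, ∃ δ ∈ D', δ⁻¹ * x ∈ cong ρ m := by
  set C := lim (fun m => cong ρ m) (cong_normal ρ) D' with hC
  have hle : D' ≤ C := fun δ hδ m => ⟨δ, hδ, by rw [inv_mul_cancel]; exact one_mem _⟩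
  have hfin : C.FiniteIndex := by
    refine fin_of_lim_sub (V := fun m => cong ρ m) (fun m m' hm => cong_anti ρ hm)
      (fun x hx => lim_of_lim hx) hH (D := D) happ hRf (fun δ hδ => ?_)
    obtain ⟨r, hr, h⟩ := hR δ hδ
    exact ⟨r, hr, hle h⟩
  refine ⟨C, hfin, Subgroup.isOpen_of_isClosed_of_finiteIndex _ ?_, fun x hx => hx⟩
  refine isClosed_of_closure_subset fun g hg => ?_
  refine lim_of_lim fun m => ?_
  have hopen : IsOpen ((fun x => x⁻¹ * g) ⁻¹' ((cong ρ m : Subgroup G) : Set G)) :=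
    (cong_open hA hρ m).preimage (continuous_inv.mul continuous_const)
  obtain ⟨x, hx1, hx2⟩ := mem_closure_iff.1 hg _ hopen (by
    show g⁻¹ * g ∈ cong ρ m
    rw [inv_mul_cancel]
    exact one_mem _)
  exact ⟨x, hx2, hx1⟩

end rep

end Pool.Agent.V7H44.MT
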