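import Pool.Agent.V7H44.MT.Stm
import Pool.Agent.V7H44.MT.Zar

/-!
# One place decides the Mumford-Tate conjecture
-/

set_option autoImplicit false
set_option linter.unusedSectionVars false

namespace Pool.Agent.V7H44.MT

open IsLocalRing Matrix Pool.Agent.Z384 Pool.Agent.V7H44.DVS

section lin

variable {E : Type*} [Field E] {n : ℕ} {S : Type*}

/-- a nonzero stable subspace of a triangular representation has an eigenvector -/
lemma exists_eigen (M : S → Matrix (Fin n) (Fin n) E) {P Q : Matrix (Fin n) (Fin n) E}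
    (hQP : Q * P = 1) (htri : ∀ s, ∀ i j : Fin n, j < i → (Q * M s * P) i j = 0)
    {W : Submodule E (Fin n → E)} (hW : ∀ s, ∀ w ∈ W, M s *ᵥ w ∈ W) (hne : W ≠ ⊥) :
    ∃ v ∈ W, v ≠ 0 ∧ ∀ s, ∃ c : E, M s *ᵥ v = c • v := by
  classical
  have hPQ : P * Q = 1 := mul_eq_one_comm.1 hQP
  have hex : ∃ k : ℕ, ∃ v ∈ W, v ≠ 0 ∧ ∀ j : Fin n, k ≤ (j : ℕ) → (Q *ᵥ v) j = 0 := by
    obtain ⟨v, hv, hv0⟩ := W.ne_bot_iff.1 hne
    exact ⟨n, v, hv, hv0, fun j hj => absurd j.2 (not_lt.2 hj)⟩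
  obtain ⟨v, hv, hv0, hk⟩ := Nat.find_spec hex
  have hmin := fun m (hm : m < Nat.find hex) => Nat.find_min hex hm
  obtain ⟨k, hkk⟩ : ∃ k, Nat.find hex = k := ⟨_, rfl⟩
  rw [hkk] at hk hmin
  rcases k with _ | k
  · exfalso
    apply hv0
    have h1 : Q *ᵥ v = 0 := funext fun j => hk j (Nat.zero_le _)
    have h2 : P *ᵥ (Q *ᵥ v) = v := by rw [mulVec_mulVec, hPQ, one_mulVec]
    rw [← h2, h1, mulVec_zero]
  · have hkn : k < n := by
      by_contra hcon
      exact hmin k (Nat.lt_succ_self k) ⟨v, hv, hv0, fun j hj => absurd j.2 (by omega)⟩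
    refine ⟨v, hv, hv0, fun s => ⟨(Q * M s * P) ⟨k, hkn⟩ ⟨k, hkn⟩, ?_⟩⟩
    by_contra hne'
    refine hmin k (Nat.lt_succ_self k) ⟨M s *ᵥ v - (Q * M s * P) ⟨k, hkn⟩ ⟨k, hkn⟩ • v,
      W.sub_mem (hW s v hv) (W.smul_mem _ hv), sub_ne_zero.2 hne', fun j hj => ?_⟩
    have h1 : Q *ᵥ (M s *ᵥ v) = (Q * M s * P) *ᵥ (Q *ᵥ v) := by
      rw [mulVec_mulVec, mulVec_mulVec, Matrix.mul_assoc (Q * M s), hPQ, Matrix.mul_one]
    rw [mulVec_sub, mulVec_smul, h1, Pi.sub_apply, Pi.smul_apply, smul_eq_mul]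
    have h2 : ((Q * M s * P) *ᵥ (Q *ᵥ v)) j = (Q * M s * P) j j * (Q *ᵥ v) j := by
      show ∑ i, (Q * M s * P) j i * (Q *ᵥ v) i = _
      refine Finset.sum_eq_single j (fun i _ hij => ?_) (fun h => absurd (Finset.mem_univ j) h)
      rcases lt_or_gt_of_ne hij with h | h
      · rw [htri s j i h, zero_mul]
      · rw [hk i (by have : (j : ℕ) < i := h; omega), mul_zero]
    rw [h2]
    rcases Nat.eq_or_lt_of_le hj with h | h
    · have h3 : j = ⟨k, hkn⟩ := Fin.ext h.symm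
      rw [h3, sub_self]
    · rw [hk j h, mul_zero, mul_zero, sub_zero]

/-- **Semisimple triangular representations are commutative.** -/
theorem comm_of_tri (M : S → Matrix (Fin n) (Fin n) E) (hmul : ∀ s t, ∃ u, M s * M t = M u)
    {P Q : Matrix (Fin n) (Fin n) E}
    (hQP : Q * P = 1) (htri : ∀ s, ∀ i j : Fin n, j < i → (Q * M s * P) i j = 0)
    (hss : ∀ W : Submodule E (Fin n → E), (∀ s, ∀ w ∈ W, M s *ᵥ w ∈ W) →
      ∃ W' : Submodule E (Fin n → E), IsCompl W W' ∧ ∀ s, ∀ w ∈ W', M s *ᵥ w ∈ W')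
    (s t : S) : M s * M t = M t * M s := by
  classical
  let W : Submodule E (Fin n → E) :=
    { carrier := {v | ∀ s t, M s *ᵥ (M t *ᵥ v) = M t *ᵥ (M s *ᵥ v)}
      add_mem' := by
        intro a b ha hb s t
        rw [mulVec_add, mulVec_add, mulVec_add, mulVec_add, ha s t, hb s t]
      zero_mem' := by
        intro s t
        simp only [mulVec_zero]
      smul_mem' := by
        intro c a ha s t
        rw [mulVec_smul, mulVec_smul, mulVec_smul, mulVec_smul, ha s t] }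
  have hWm : ∀ v, v ∈ W ↔ ∀ s t, M s *ᵥ (M t *ᵥ v) = M t *ᵥ (M s *ᵥ v) := fun v => Iff.rfl
  obtain ⟨W', hc, hW'⟩ := hss W (by
    intro r v hv
    rw [hWm] at hv ⊢
    intro s t
    obtain ⟨u, hu⟩ := hmul t r
    have h1 : M t *ᵥ (M r *ᵥ v) = M u *ᵥ v := by rw [mulVec_mulVec, hu]
    rw [h1, hv s u, ← hu, ← mulVec_mulVec, hv r s])
  have hbot : W' = ⊥ := by
    by_contra hne
    obtain ⟨v, hv, hv0, he⟩ := exists_eigen M hQP htri hW' hne
    apply hv0
    have h1 : v ∈ W := by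
      rw [hWm]
      intro s t
      obtain ⟨c, hc⟩ := he s
      obtain ⟨d, hd⟩ := he t
      rw [hd, mulVec_smul, hc, mulVec_smul, hd, smul_comm]
    have h2 := hc.disjoint.le_bot (show v ∈ W ⊓ W' from ⟨h1, hv⟩)
    exact (Submodule.mem_bot E).1 h2
  have htop : W = ⊤ := by
    have h1 := hc.sup_eq_top
    rwa [hbot, sup_bot_eq] at h1
  have hall : ∀ v, M s *ᵥ (M t *ᵥ v) = M t *ᵥ (M s *ᵥ v) := fun v =>
    (hWm v).1 (by rw [htop]; exact Submodule.mem_top) s t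
  apply Matrix.ext_of_mulVec_single
  intro i
  rw [← mulVec_mulVec, ← mulVec_mulVec]
  exact hall _

end lin

section grp

variable {G : Type} [Group G] [TopologicalSpace G] [IsTopologicalGroup G] {p : ℕ}
  [hpp : Fact p.Prime]
variable {H H' : Subgroup G} {T : Set G} {D : Subgroup G}
variable {A : Type} [CommRing A] [IsLocalRing A] [TopologicalSpace A] {n : ℕ}

omit [TopologicalSpace G] [IsTopologicalGroup G] in
/-- finitely many cosets of the intersection with the local group -/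
lemma covered' (hH : H' ≤ H) {Δ : Subgroup G}
    (h : FinitelyCovered H {δ | δ ∈ H' ∧ δ ∈ D} Δ) :
    ∃ R : Set H, R.Finite ∧ ∀ δ : H, (δ : G) ∈ H' → (δ : G) ∈ D →
      ∃ r ∈ R, r⁻¹ * δ ∈ (Δ ⊓ (H' ⊓ D)).subgroupOf H := by
  obtain ⟨R, hRf, hR⟩ := covered hH h
  set L : Subgroup H := (H' ⊓ D).subgroupOf H with hL
  obtain ⟨R', hRf', hR'⟩ := DV.cosets_sub (G := H) (H := L) (C := Δ.subgroupOf H)
    (D := Set.univ) hRf (fun δ _ => hR δ δ.2.1 δ.2.2)
  refine ⟨Subtype.val '' R', hRf'.image _, fun δ h1 h2 => ?_⟩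
  obtain ⟨r, hr, h3⟩ := hR' ⟨δ, h1, h2⟩ trivial
  refine ⟨r, ⟨r, hr, rfl⟩, ?_⟩
  have h4 : ((r⁻¹ * ⟨δ, h1, h2⟩ : L) : H) ∈ L := (r⁻¹ * ⟨δ, h1, h2⟩ : L).2
  exact ⟨h3, h4.1, h4.2⟩

variable [CompactSpace G]

omit [IsTopologicalGroup G] in
lemma covers_of_finite [IsTopologicalGroup G] {C : Subgroup H} (hC : C.FiniteIndex) :
    FinitelyCovered H (H : Set G) (C.map H.subtype) := by
  have : Finite (H ⧸ C) := inferInstance
  refine ⟨map_le C, Set.range fun x : H ⧸ C => ((x.out : H) : G), Set.finite_range _, ?_⟩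
  intro δ hδ
  refine ⟨_, ⟨(QuotientGroup.mk (⟨δ, hδ⟩ : H) : H ⧸ C), rfl⟩, ?_⟩
  exact ⟨_, QuotientGroup.eq.1 (QuotientGroup.out_eq' (QuotientGroup.mk (⟨δ, hδ⟩ : H) : H ⧸ C)), rfl⟩

lemma covers_of_open {U : Subgroup G} (hU : U ≤ H) (ho : IsOpen (U : Set G)) :
    FinitelyCovered H (H : Set G) U := by
  have h1 : (U.subgroupOf H).FiniteIndex := fin_index ho
  have h2 := covers_of_finite (G := G) h1
  rwa [Subgroup.subgroupOf_map_subtype, inf_eq_left.2 hU] at h2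

/-- **The closure of a subgroup of finite index of the local group.** -/
theorem closure {F : Type} [Field F] [Algebra A F] (hA : Coefficients p A F)
    (hH : H' ≤ H) (ho : IsOpen (H' : Set G)) (h : NonSplit p H' T D)
    {ρ : G → Matrix (Fin n) (Fin n) A} (hρ : IsRep H H' T ρ) {Δ : Subgroup G}
    (hΔ : FinitelyCovered H {δ | δ ∈ H' ∧ δ ∈ D} Δ) :
    ∃ C ≤ H, IsOpen (C : Set G) ∧ FinitelyCovered H (H : Set G) C ∧
      ∀ f : MvPolynomial (Fin n × Fin n) (AlgebraicClosure F),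
        (∀ δ ∈ Δ, δ ∈ H' → δ ∈ D →
          MvPolynomial.eval (fun q : Fin n × Fin n => bar F ρ δ q.1 q.2) f = 0) →
        ∀ x ∈ C, MvPolynomial.eval (fun q : Fin n × Fin n => bar F ρ x q.1 q.2) f = 0 := by
  have := hA.noetherian
  have := hA.fraction
  obtain ⟨R, hRf, hR⟩ := covered' hH hΔ
  obtain ⟨C, h1, h2, h3⟩ := exists_open (G := H) hA.adic (ρ := toRep hρ.one hρ.mul)
    (rep_cont hρ) (H := H'.subgroupOf H) (fin_index ho)
    (D := {δ | ((δ : H) : G) ∈ H' ∧ ((δ : H) : G) ∈ D})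
    (fun m g => by
      obtain ⟨δ, h1, h2, h3, -⟩ := dense hA hH ho h hρ hρ m (g : H) g.2
      exact ⟨⟨δ, h1⟩, ⟨h1, h2⟩, h3⟩)
    (D' := (Δ ⊓ (H' ⊓ D)).subgroupOf H) (R := R) hRf (fun δ hδ => hR δ hδ.1 hδ.2)
  have hHo : IsOpen (H : Set G) := Subgroup.isOpen_mono hH ho
  refine ⟨C.map H.subtype, map_le C, hHo.isOpenEmbedding_subtypeVal.isOpenMap _ h2,
    covers_of_finite h1, ?_⟩
  rintro f hf _ ⟨x, hx, rfl⟩
  exact val_of_lim (F := F) (E := AlgebraicClosure F) (ρ := toRep hρ.one hρ.mul)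
    (D := ((Δ ⊓ (H' ⊓ D)).subgroupOf H : Set H)) (f := f)
    (fun δ hδ => hf δ hδ.1 hδ.2.1 hδ.2.2) (h3 x hx)

/-- **The monodromy group is the local one.** -/
theorem monodromy {F : Type} [Field F] [Algebra A F] (hA : Coefficients p A F)
    (hH : H' ≤ H) (ho : IsOpen (H' : Set G)) (h : NonSplit p H' T D)
    {ρ : G → Matrix (Fin n) (Fin n) A} (hρ : IsRep H H' T ρ)
    (g : Matrix (Fin n) (Fin n) (AlgebraicClosure F)) :
    InMonodromy F H (H : Set G) ρ g ↔ InMonodromy F H {δ | δ ∈ H' ∧ δ ∈ D} ρ g := by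
  constructor
  · rintro hg f ⟨Δ, hΔ, hf⟩
    obtain ⟨C, hC, -, hcov, hCf⟩ := closure hA hH ho h hρ hΔ
    exact hg f ⟨C, hcov, fun δ hδ _ => hCf f (fun δ h1 h2 h3 => hf δ h1 ⟨h2, h3⟩) δ hδ⟩
  · rintro hg f ⟨Δ, ⟨hΔ, R, hRf, hR⟩, hf⟩
    exact hg f ⟨Δ, ⟨hΔ, R, hRf, fun δ hδ => hR δ (hH hδ.1)⟩, fun δ h1 h2 => hf δ h1 (hH h2.1)⟩

/-- the polynomial which gives an entry of `Q X P` -/
noncomputable def lin {E : Type*} [Field E] (Q P : Matrix (Fin n) (Fin n) E) (i j : Fin n) :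
    MvPolynomial (Fin n × Fin n) E :=
  ∑ l, (∑ k, MvPolynomial.C (Q i k) * MvPolynomial.X (k, l)) * MvPolynomial.C (P l j)

omit [TopologicalSpace G] [IsTopologicalGroup G] hpp [CompactSpace G] in
lemma eval_lin {E : Type*} [Field E] (Q P M : Matrix (Fin n) (Fin n) E) (i j : Fin n) :
    MvPolynomial.eval (fun q : Fin n × Fin n => M q.1 q.2) (lin Q P i j) = (Q * M * P) i j := by
  rw [lin, map_sum, Matrix.mul_apply]
  refine Finset.sum_congr rfl fun l _ => ?_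
  rw [map_mul, MvPolynomial.eval_C, map_sum, Matrix.mul_apply]
  congr 1
  refine Finset.sum_congr rfl fun k _ => ?_
  rw [map_mul, MvPolynomial.eval_C, MvPolynomial.eval_X]

/-- **Potentially triangular at one place.** -/
theorem triangular {F : Type} [Field F] [Algebra A F] (hA : Coefficients p A F)
    (hH : H' ≤ H) (ho : IsOpen (H' : Set G)) (h : NonSplit p H' T D)
    {ρ : G → Matrix (Fin n) (Fin n) A} (hρ : IsRep H H' T ρ)
    (ht : PotentiallyTriangular F H {δ | δ ∈ H' ∧ δ ∈ D} ρ) :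
    PotentiallyTriangular F H (H : Set G) ρ ∧
      (Semisimple F H ρ → PotentiallyAbelian H ρ) := by
  obtain ⟨Δ, P, Q, hΔ, hQP, htri⟩ := ht
  obtain ⟨C, hC, hCo, hcov, hCf⟩ := closure hA hH ho h hρ hΔ
  have h1 : ∀ x ∈ C, ∀ i j : Fin n, j < i → (Q * bar F ρ x * P) i j = 0 := by
    intro x hx i j hij
    rw [← eval_lin]
    refine hCf _ (fun δ h1 h2 h3 => ?_) x hx
    rw [eval_lin]
    exact htri δ h1 ⟨h2, h3⟩ i j hij
  refine ⟨⟨C, P, Q, hcov, hQP, fun δ hδ _ => h1 δ hδ⟩, fun hss => ⟨C, hC, hCo, ?_⟩⟩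
  have hmul : ∀ σ ∈ H, ∀ τ ∈ H, bar F ρ (σ * τ) = bar F ρ σ * bar F ρ τ := by
    intro σ hσ τ hτ
    rw [bar, bar, bar, mat, mat, mat, hρ.mul σ hσ τ hτ, Matrix.map_mul, Matrix.map_mul]
  intro σ hσ τ hτ
  have h2 := comm_of_tri (fun s : C => bar F ρ s)
    (fun s t => ⟨s * t, (hmul s (hC s.2) t (hC t.2)).symm⟩) hQP
    (fun s i j hij => h1 s s.2 i j hij) (fun W hW => by
      obtain ⟨W', h3, h4⟩ := hss C hC hCo W (fun σ hσ w hw => hW ⟨σ, hσ⟩ w hw)
      exact ⟨W', h3, fun s w hw => h4 s s.2 w hw⟩) ⟨σ, hσ⟩ ⟨τ, hτ⟩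
  have := hA.fraction
  have hinj : Function.Injective (fun M : Matrix (Fin n) (Fin n) A =>
      (M.map (algebraMap A F)).map (algebraMap F (AlgebraicClosure F))) := by
    intro a b hab
    exact Matrix.map_injective (IsFractionRing.injective A F)
      (Matrix.map_injective (algebraMap F (AlgebraicClosure F)).injective hab)
  apply hinj
  have h3 : bar F ρ σ * bar F ρ τ = bar F ρ τ * bar F ρ σ := h2
  show ((ρ σ * ρ τ).map (algebraMap A F)).map (algebraMap F (AlgebraicClosure F)) =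
    ((ρ τ * ρ σ).map (algebraMap A F)).map (algebraMap F (AlgebraicClosure F))
  rw [Matrix.map_mul, Matrix.map_mul, Matrix.map_mul, Matrix.map_mul]
  exact h3

/-- **The Zariski closure of a commutative group.** -/
theorem comm_closure {F : Type} [Field F] [Algebra A F]
    {ρ : G → Matrix (Fin n) (Fin n) A} (hab : PotentiallyAbelian H ρ)
    (g g' : Matrix (Fin n) (Fin n) (AlgebraicClosure F)) (hg : InMonodromy F H (H : Set G) ρ g)
    (hg' : InMonodromy F H (H : Set G) ρ g') : g * g' = g' * g := by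
  obtain ⟨U, hU, ho, hc⟩ := hab
  have hcov := covers_of_open hU ho
  have hc' : ∀ σ ∈ U, ∀ τ ∈ U, bar F ρ σ * bar F ρ τ = bar F ρ τ * bar F ρ σ := by
    intro σ hσ τ hτ
    rw [bar, bar, mat, mat, ← Matrix.map_mul, ← Matrix.map_mul, ← Matrix.map_mul, ← Matrix.map_mul,
      hc σ hσ τ hτ]
  have key : ∀ (X : Matrix (Fin n) (Fin n) (AlgebraicClosure F)),
      (∀ σ ∈ U, bar F ρ σ * X = X * bar F ρ σ) → ∀ Y, InMonodromy F H (H : Set G) ρ Y →
        Y * X = X * Y := by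
    intro X hX Y hY
    ext i j
    have h1 := hY (lin 1 X i j - lin X 1 i j) ⟨U, hcov, fun δ hδ _ => by
      rw [map_sub, eval_lin, eval_lin, Matrix.one_mul, Matrix.mul_one, hX δ hδ, sub_self]⟩
    rw [map_sub, eval_lin, eval_lin, Matrix.one_mul, Matrix.mul_one, sub_eq_zero] at h1
    exact h1
  refine key g' (fun σ hσ => ?_) g hg
  exact (key (bar F ρ σ) (fun τ hτ => hc' τ hτ σ hσ) g' hg').symm

/-- **Tate classes.** -/
theorem classes {F : Type} [Field F] [Algebra A F] (hA : Coefficients p A F)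
    (hH : H' ≤ H) (ho : IsOpen (H' : Set G)) (h : NonSplit p H' T D)
    {ρ : G → Matrix (Fin n) (Fin n) A} (hρ : IsRep H H' T ρ) (v : Fin n → AlgebraicClosure F)
    (hv : Invariant F H {δ | δ ∈ H' ∧ δ ∈ D} ρ v) : Invariant F H (H : Set G) ρ v := by
  obtain ⟨Δ, hΔ, hf⟩ := hv
  obtain ⟨C, hC, hCo, hcov, hCf⟩ := closure hA hH ho h hρ hΔ
  refine ⟨C, hcov, fun x hx _ => ?_⟩
  let V : Matrix (Fin n) (Fin n) (AlgebraicClosure F) := Matrix.of fun k _ => v k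
  have e : ∀ (M : Matrix (Fin n) (Fin n) (AlgebraicClosure F)) (i j : Fin n),
      ((1 : Matrix (Fin n) (Fin n) (AlgebraicClosure F)) * M * V) i j = (M *ᵥ v) i := by
    intro M i j
    rw [Matrix.one_mul]
    rfl
  funext i
  have h1 := hCf (lin 1 V i i - MvPolynomial.C (v i))
    (fun δ h1 h2 h3 => by
      rw [map_sub, eval_lin, e, MvPolynomial.eval_C, hf δ h1 ⟨h2, h3⟩, sub_self]) x hx
  rw [map_sub, eval_lin, e, MvPolynomial.eval_C, sub_eq_zero] at h1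
  exact h1

end grp

end Pool.Agent.V7H44.MT
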